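import Mathlib
import Pool.Agent.Lib.helper11.Cyc

open Finset Complex

namespace Pool.Agent.Results.MP_06877e_nt.Fails

noncomputable def S (p : ℕ) (x : ℂ) : ℂ :=
  ∏ k ∈ Icc 1 ((p - 1) / 2), (x - exp (2 * Real.pi * I * (k : ℂ) ^ 2 / p))

open Pool.Agent.Lib.helper11.Cyc in
theorem result : ¬ ∀ p : ℕ, p.Prime → 3 < p → p % 4 = 3 → ∀ x y : ℕ, 0 < x → 0 < y →
    3 * (x : ℤ) ^ 2 + 4 * jacobiSym p 3 = p * (y : ℤ) ^ 2 →
    (∀ x' y' : ℕ, 0 < x' → 0 < y' → 3 * (x' : ℤ) ^ 2 + 4 * jacobiSym p 3 = p * (y' : ℤ) ^ 2 →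
      x ≤ x' ∧ y ≤ y') →
    ‖S p (exp (2 * Real.pi * I / 3))‖ = |x * √3 - y * √p| / 2 ∧
    ‖S p (exp (-(2 * Real.pi * I / 3)))‖ = (x * √3 + y * √p) / 2 := by
  intro h
  have hj : jacobiSym ((107 : ℕ) : ℤ) 3 = -1 := by norm_num
  obtain ⟨h1, h2⟩ := h 107 (by norm_num) (by norm_num) (by norm_num) 12 2 (by norm_num)
    (by norm_num) (by rw [hj]; norm_num) (by
      intro x y hx hy e
      rw [hj] at e
      have hy2 : 2 ≤ y := by
        by_contra hc
        obtain rfl : y = 1 := by omega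
        have : x ≤ 6 := by
          by_contra hx6
          have : (7 : ℤ) ≤ x := by omega
          push_cast at e
          nlinarith
        interval_cases x <;> norm_num at e
      refine ⟨?_, hy2⟩
      have : (2 : ℤ) ≤ y := by exact_mod_cast hy2
      by_contra hc
      have : (x : ℤ) ≤ 11 := by omega
      push_cast at e
      nlinarith)
  have hθ := Complex.isPrimitiveRoot_exp 321 (by norm_num)
  set θ := exp (2 * Real.pi * I / (321 : ℕ)) with hθd
  have e1 : exp (2 * Real.pi * I / 3) = θ ^ 107 := by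
    rw [hθd, ← exp_nat_mul]; congr 1; push_cast; ring
  have e2 : exp (-(2 * Real.pi * I / 3)) = θ ^ 214 := by
    rw [hθd, ← exp_nat_mul, ← exp_periodic (-(2 * Real.pi * I / 3))]; congr 1; push_cast; ring
  have e3 : ∀ k : ℕ, exp (2 * Real.pi * I * (k : ℂ) ^ 2 / (107 : ℕ)) = θ ^ (3 * k ^ 2) := by
    intro k
    rw [hθd, ← exp_nat_mul]; congr 1; push_cast; ring
  simp only [S, e1, e2, e3] at h1 h2
  have : Fact (Nat.Prime 643) := ⟨by norm_num⟩
  have hg := prim_of 643 7 321 (by norm_num) (by decide +kernel) (by decide +kernel)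
  have := two_norms_mod (by norm_num) hθ 643 _ hg (Icc 1 ((107 - 1) / 2)) 107 214
    (fun k => 3 * k ^ 2) 430 (by
      rw [h1, h2, div_pow, sq_abs]
      have a3 : √3 ^ 2 = 3 := Real.sq_sqrt (by norm_num)
      have a7 : √((107 : ℕ) : ℝ) ^ 2 = 107 := Real.sq_sqrt (by norm_num)
      push_cast at a7 ⊢
      nlinarith)
  revert this
  decide +kernel

end Pool.Agent.Results.MP_06877e_nt.Fails
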